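import Pool.Agent.Work.MP_2738db_nt_C.Interface

set_option autoImplicit false

/-! Block FINO of MP_2738db (COPRIME EXPONENTS): the theorem for odd `c`. -/

namespace Pool.Agent.Work.MP_2738db_nt_C.helper1.FINO

open Finset Filter

theorem ev_log (P : ℝ → Prop) (h : ∀ᶠ x : ℝ in atTop, P x) :
    ∃ N₁ : ℕ, ∀ N : ℕ, N₁ ≤ N → P (Real.log N) := by
  have h1 : Tendsto (fun N : ℕ => Real.log (N : ℝ)) atTop atTop :=
    Real.tendsto_log_atTop.comp tendsto_natCast_atTop_atTop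
  obtain ⟨N₁, h2⟩ := eventually_atTop.mp (h1.eventually h)
  exact ⟨N₁, h2⟩

/-- the basic inequality -/
theorem ev_main (C : ℝ) (hC : 1 ≤ C) :
    ∀ᶠ L : ℝ in atTop, 1 ≤ L ∧ L ≤ Real.exp (L ^ (1 - 1 / 60 : ℝ)) ∧ 1 ≤ L ^ (1 - 1 / 60 : ℝ) ∧
      ∀ s : ℝ, L ^ (1 - 1 / 60 : ℝ) < s →
      C * Real.exp (L ^ (1 - 1 / 30 : ℝ)) ^ 2 * L ^ 4 * (1 + s) ^ 2 < Real.exp s := by
  have h1 : ∀ᶠ s : ℝ in atTop, (1 + s) ^ 2 ≤ Real.exp (s / 2) := by
    have h := Real.tendsto_pow_mul_exp_neg_atTop_nhds_zero 2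
    have h2 : Tendsto (fun s : ℝ => s / 2) atTop atTop :=
      tendsto_id.atTop_div_const (by norm_num)
    have h3 := (h.comp h2).eventually_lt_const (show (0 : ℝ) < 1 / 16 by norm_num)
    filter_upwards [h3, eventually_ge_atTop 1] with s hs hs1
    simp only [Function.comp_apply] at hs
    rw [Real.exp_neg, ← div_eq_mul_inv, div_lt_div_iff₀ (Real.exp_pos _) (by norm_num)] at hs
    nlinarith
  obtain ⟨S, hS⟩ := eventually_atTop.mp h1
  have hT : Tendsto (fun L : ℝ => L ^ (1 / 60 : ℝ)) atTop atTop :=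
    tendsto_rpow_atTop (by norm_num)
  have hT2 : Tendsto (fun L : ℝ => L ^ (1 - 1 / 60 : ℝ)) atTop atTop :=
    tendsto_rpow_atTop (by norm_num)
  have hlC : 0 ≤ Real.log C := Real.log_nonneg hC
  filter_upwards [hT2.eventually_ge_atTop (max S 1), eventually_ge_atTop 1,
    hT.eventually_ge_atTop (2 * (Real.log C + 242))] with L hL hL1 hy
  have hL0 : 0 ≤ L := by linarith
  set y : ℝ := L ^ (1 / 60 : ℝ) with hydef
  have hy1 : 1 ≤ y := by linarith
  have hy0 : 0 < y := by linarith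
  have hy59 : L ^ (1 - 1 / 60 : ℝ) = y ^ 59 := by
    rw [hydef, ← Real.rpow_natCast, ← Real.rpow_mul hL0]
    norm_num
  have hy58 : L ^ (1 - 1 / 30 : ℝ) = y ^ 58 := by
    rw [hydef, ← Real.rpow_natCast, ← Real.rpow_mul hL0]
    norm_num
  have hy60 : L = y ^ 60 := by
    rw [hydef, ← Real.rpow_natCast, ← Real.rpow_mul hL0]
    norm_num
  rw [hy59, hy58]
  rw [hy59] at hL
  have hlogL : Real.log L ≤ 60 * y := by
    rw [hy60, Real.log_pow]
    have := Real.log_le_sub_one_of_pos hy0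
    push_cast
    linarith
  have hy58' : 1 ≤ y ^ 58 := one_le_pow₀ hy1
  have hyy : y ≤ y ^ 58 := le_self_pow₀ hy1 (by norm_num)
  have hmain : Real.log C + 2 * y ^ 58 + 4 * Real.log L ≤ y ^ 59 / 2 := by
    have h2 : y ^ 59 = y * y ^ 58 := by ring
    have h3 : 2 * (Real.log C + 242) * y ^ 58 ≤ y * y ^ 58 :=
      mul_le_mul_of_nonneg_right hy (by positivity)
    have h4 : Real.log C ≤ Real.log C * y ^ 58 := by nlinarith
    rw [h2]
    nlinarith
  have hLpos : 0 < L := by linarith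
  refine ⟨hL1, ?_, ?_, ?_⟩
  · have h2 : Real.log L ≤ y ^ 59 := by
      have h5 : 0 ≤ Real.log L := Real.log_nonneg hL1
      have h6 : 0 ≤ y ^ 59 := by positivity
      have h7 : 0 ≤ y ^ 58 := by positivity
      linarith
    calc L = Real.exp (Real.log L) := (Real.exp_log hLpos).symm
      _ ≤ _ := Real.exp_le_exp.mpr h2
  · exact one_le_pow₀ hy1
  · intro s hs
    have h2 := hS s (le_trans (le_trans (le_max_left _ _) hL) hs.le)
    have h3 : C * Real.exp (y ^ 58) ^ 2 * L ^ 4 =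
        Real.exp (Real.log C + 2 * y ^ 58 + 4 * Real.log L) := by
      rw [Real.exp_add, Real.exp_add, Real.exp_log (by linarith),
        show (2 : ℝ) * y ^ 58 = ((2 : ℕ) : ℝ) * y ^ 58 by norm_num,
        show (4 : ℝ) * Real.log L = ((4 : ℕ) : ℝ) * Real.log L by norm_num,
        Real.exp_nat_mul, Real.exp_nat_mul, Real.exp_log hLpos]
    rw [h3]
    calc Real.exp (Real.log C + 2 * y ^ 58 + 4 * Real.log L) * (1 + s) ^ 2
        ≤ Real.exp (y ^ 59 / 2) * Real.exp (s / 2) := by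
          apply mul_le_mul (Real.exp_le_exp.mpr hmain) h2 (by positivity) (Real.exp_pos _).le
      _ < Real.exp (s / 2) * Real.exp (s / 2) := by
          apply mul_lt_mul_of_pos_right _ (Real.exp_pos _)
          apply Real.exp_lt_exp.mpr
          linarith
      _ = Real.exp s := by
          rw [← Real.exp_add]
          congr 1
          ring

theorem card_le (N : ℕ) (P : ℕ → Prop) : ({c : ℕ | 1 ≤ c ∧ c ≤ N ∧ P c}.ncard) ≤ N := by
  calc ({c : ℕ | 1 ≤ c ∧ c ≤ N ∧ P c}.ncard) ≤ (Set.Icc 1 N).ncard :=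
        Set.ncard_le_ncard (fun c hc => ⟨hc.1, hc.2.1⟩) (Set.finite_Icc 1 N)
    _ = N := by
        rw [Set.ncard_eq_toFinset_card']
        simp

theorem fo_aux (hSto : Stmt_Sto) (hSvo : Stmt_Svo) (hXo1 : Stmt_Xo1) (hXo2 : Stmt_Xo2)
    (hXo3 : Stmt_Xo3) (hPsv : Stmt_Psv) (hCls : Stmt_Cls) : Stmt_Fo := by
  obtain ⟨κ, hκ, N₀, hN₀⟩ := hSvo (1 / 60) (by norm_num) (by norm_num)
  obtain ⟨C₁, hC₁, hX1⟩ := hXo1
  obtain ⟨C₂, hC₂, hX2⟩ := hXo2
  obtain ⟨C₃, δ, hδ, hP⟩ := hPsv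
  obtain ⟨C₄, hCl⟩ := hCls
  obtain ⟨N₁, hN₁⟩ := ev_log _ (ev_main (C₁ + C₂) (by linarith))
  have key : ∀ N : ℕ, N₁ ≤ N → 3 ≤ N → ∀ c : ℕ, 1 ≤ c → c ≤ N → ¬ 2 ∣ c → D2 c →
      (∃ u v k l A : ℕ, c = u * v ∧ 1 ≤ u ∧ u < v ∧ Nat.Coprime u v ∧
        ¬ 2 ∣ u ∧ ¬ 2 ∣ v ∧ 1 ≤ k ∧ l.Prime ∧ Real.log l ≤ Real.log N ^ (1 - 1 / 60 : ℝ) ∧
        EqO u v k l A) ∨
      (∃ u v : ℕ, c = u * v ∧ 1 ≤ u ∧ u < v ∧
        Real.log N * (Real.log v - Real.log u) < 1) ∨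
      (∃ u v w : ℕ, c = u * v ∧ Nat.Coprime u v ∧ u < v ∧
        (v + u = 2 * w ∨ v = u + 2 * w) ∧
        ∀ p : ℕ, p.Prime → (p : ℝ) ≤ Real.exp (Real.log N ^ (1 - 1 / 30 : ℝ)) → ¬ p ∣ w) := by
    intro N hN hN3 c hc1 hcN h2c hD
    obtain ⟨hL1, hLexp, hpow1, hbig⟩ := hN₁ N hN
    obtain ⟨k, x, y, l, A, hk, hxy, hy, hl, heq, hA⟩ := hD
    obtain ⟨u, v, hc, hu, huv, hcop, h2u, h2v, hx2, hy2⟩ := hSto x y c k hxy hy h2c hk heq
    have hE : EqO u v k l A := by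
      unfold EqO
      rcases hA with rfl | rfl
      · exact Or.inl hx2.symm
      · exact Or.inr (by omega)
    by_cases hlog : Real.log l ≤ Real.log N ^ (1 - 1 / 60 : ℝ)
    · left
      exact ⟨u, v, k, l, A, hc, hu, huv, hcop, h2u, h2v, hk, hl, hlog, hE⟩
    push Not at hlog
    have hA1 : 1 ≤ A := by
      rcases Nat.eq_zero_or_pos A with h0 | h0
      · exfalso
        subst h0
        have hz : (0 : ℕ) ^ l = 0 := zero_pow hl.ne_zero
        rw [hz] at hA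
        rcases hA with rfl | rfl
        · have : 1 ≤ y ^ 2 := Nat.one_le_pow _ _ hy
          omega
        · omega
      · exact h0
    rcases Nat.lt_or_ge A 2 with hA2 | hA2
    · left
      have hA' : A = 1 := by omega
      subst hA'
      refine ⟨u, v, k, 2, 1, hc, hu, huv, hcop, h2u, h2v, hk, Nat.prime_two, ?_, ?_⟩
      · have h3 := Real.log_two_lt_d9
        push_cast
        linarith
      · unfold EqO at hE ⊢
        simpa using hE
    right
    set L : ℝ := Real.log N with hLdef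
    by_cases hclose : 1 ≤ L * (Real.log v - Real.log u)
    swap
    · left
      push Not at hclose
      exact ⟨u, v, hc, hu, huv, hclose⟩
    right
    have hvN : v ≤ N := by
      have : 1 * v ≤ u * v := Nat.mul_le_mul_right v hu
      omega
    have hv1 : 1 ≤ v := by omega
    have hlogv : Real.log v ≤ L := Real.log_le_log (by exact_mod_cast hv1) (by exact_mod_cast hvN)
    have hl0 : (0 : ℝ) < l := by exact_mod_cast hl.pos
    have hexpl : Real.exp (Real.log l) = l := Real.exp_log hl0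
    have hb := hbig (Real.log l) hlog
    rw [hexpl] at hb
    have hlog0 : 0 ≤ Real.log l := by linarith
    have hE1 : 1 ≤ Real.exp (L ^ (1 - 1 / 30 : ℝ)) := by
      apply Real.one_le_exp
      apply Real.rpow_nonneg
      linarith
    by_cases hk2 : 2 ∣ k
    · exfalso
      refine hX1 u v k l A L hu huv hcop h2u h2v hk hk2 hl hA2 hL1 hlogv hclose ?_ hE
      refine lt_of_le_of_lt ?_ hb
      have h1 : C₁ ≤ (C₁ + C₂) * Real.exp (L ^ (1 - 1 / 30 : ℝ)) ^ 2 := by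
        have h2 : 1 ≤ Real.exp (L ^ (1 - 1 / 30 : ℝ)) ^ 2 := one_le_pow₀ hE1
        nlinarith
      gcongr
    have hk0 : k ≠ 0 := by omega
    by_cases hr : ∃ r : ℕ, r.Prime ∧ r ∣ k ∧ (r : ℝ) ≤ Real.exp (L ^ (1 - 1 / 30 : ℝ))
    · exfalso
      obtain ⟨r, hrp, hrk, hrle⟩ := hr
      have hr3 : 3 ≤ r := by
        have h2 := hrp.two_le
        rcases Nat.lt_or_ge r 3 with h | h
        · exfalso
          have : r = 2 := by omega
          subst this
          exact hk2 hrk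
        · exact h
      refine hX2 u v k l A r L hu huv hcop h2u h2v hk hrp hr3 hrk hl hA2 hL1 hlogv hclose ?_ hE
      refine lt_of_le_of_lt ?_ hb
      have h1 : C₂ * (r : ℝ) ^ 2 ≤ (C₁ + C₂) * Real.exp (L ^ (1 - 1 / 30 : ℝ)) ^ 2 := by
        have h3 : (r : ℝ) ^ 2 ≤ Real.exp (L ^ (1 - 1 / 30 : ℝ)) ^ 2 :=
          pow_le_pow_left₀ (Nat.cast_nonneg r) hrle 2
        have h4 : (0 : ℝ) ≤ (r : ℝ) ^ 2 := by positivity
        nlinarith
      gcongr
    push Not at hr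
    set z : ℕ := ⌊Real.exp (L ^ (1 - 1 / 30 : ℝ))⌋₊ with hz
    have hzk : ∀ p : ℕ, p.Prime → p ∣ k → z < p := by
      intro p hp hpk
      rw [hz]
      exact (Nat.floor_lt (by positivity)).mpr (hr p hp hpk)
    have h2l : 2 * v < 2 ^ l := by
      -- l is large
      have h16 : L * 4 < l := by
        refine lt_of_le_of_lt ?_ hb
        have h3 : L ≤ L ^ 4 := le_self_pow₀ hL1 (by norm_num)
        have h4 : (4 : ℝ) ≤ (1 + Real.log l) ^ 2 := by nlinarith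
        have h5 : 1 ≤ (C₁ + C₂) * Real.exp (L ^ (1 - 1 / 30 : ℝ)) ^ 2 := by
          have h2 : 1 ≤ Real.exp (L ^ (1 - 1 / 30 : ℝ)) ^ 2 := one_le_pow₀ hE1
          nlinarith
        calc L * 4 ≤ 1 * L ^ 4 * 4 := by linarith
          _ ≤ _ := by gcongr
      have hN0 : (0 : ℝ) < N := by
        have : 0 < N := by omega
        exact_mod_cast this
      have hlt := Real.log_two_gt_d9
      have hlt2 := Real.log_two_lt_d9
      have h6 : Real.log (2 * N) < Real.log ((2 : ℝ) ^ l) := by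
        rw [Real.log_mul (by norm_num) (by positivity), Real.log_pow]
        nlinarith
      have h7 : (2 * N : ℝ) < (2 : ℝ) ^ l :=
        (Real.log_lt_log_iff (by positivity) (by positivity)).mp h6
      have h8 : 2 * N < 2 ^ l := by exact_mod_cast h7
      omega
    have h2' := hl.two_le
    obtain ⟨h3a, h3b⟩ := hXo3 u v k l A z hu huv hcop h2u h2v hk hk2 hzk h2' h2l
    have hzz : ∀ p : ℕ, (p : ℝ) ≤ Real.exp (L ^ (1 - 1 / 30 : ℝ)) → p ≤ z := by
      intro p hp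
      exact Nat.le_floor hp
    rcases hE with h | h
    · obtain ⟨w, hw, hpw⟩ := h3a h
      exact ⟨u, v, w, hc, hcop, huv, Or.inl hw, fun p hp hpe => hpw p hp (hzz p hpe)⟩
    · obtain ⟨w, hw, hpw⟩ := h3b h
      exact ⟨u, v, w, hc, hcop, huv, Or.inr hw, fun p hp hpe => hpw p hp (hzz p hpe)⟩
  -- counting
  set δ' : ℝ := min δ 1 with hδ'
  have hδ0 : 0 < δ' := lt_min hδ one_pos
  obtain ⟨N₂, hN₂⟩ := ev_log (fun L => L ≤ Real.exp (κ * L) ∧ 1 ≤ L) (by
    have h := Real.tendsto_pow_mul_exp_neg_atTop_nhds_zero 1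
    have h2 : Tendsto (fun L : ℝ => κ * L) atTop atTop :=
      tendsto_id.const_mul_atTop hκ
    have h3 := (h.comp h2).eventually_lt_const hκ
    filter_upwards [h3, eventually_ge_atTop 1] with L hL hL1
    simp only [Function.comp_apply, pow_one] at hL
    rw [Real.exp_neg, ← div_eq_mul_inv, div_lt_iff₀ (Real.exp_pos _)] at hL
    exact ⟨le_of_mul_le_mul_left hL.le hκ, hL1⟩)
  set N₃ : ℕ := max (max N₁ N₂) (max N₀ 3) with hN₃
  refine ⟨1 + |C₄| + |C₃| + N₃ * (1 + Real.log N₃), δ', hδ0, fun N hN => ?_⟩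
  have hN0 : (0 : ℝ) < N := by
    have : 0 < N := by omega
    exact_mod_cast this
  have hlogN0 : 0 < Real.log N := Real.log_pos (by exact_mod_cast hN)
  have hN₃log : 0 ≤ Real.log (N₃ : ℝ) := Real.log_nonneg (by
    have : 1 ≤ N₃ := by omega
    exact_mod_cast this)
  rcases Nat.lt_or_ge N N₃ with h | h
  · have h1 := card_le N (fun c => ¬ 2 ∣ c ∧ D2 c)
    have h2 : (N : ℝ) ≤ N₃ := by exact_mod_cast h.le
    have h3 : Real.log N ^ δ' ≤ 1 + Real.log N₃ := by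
      rcases le_or_gt (Real.log N) 1 with h4 | h4
      · have : Real.log N ^ δ' ≤ 1 := Real.rpow_le_one hlogN0.le h4 hδ0.le
        linarith
      · have h5 : Real.log N ^ δ' ≤ Real.log N ^ (1 : ℝ) :=
          Real.rpow_le_rpow_of_exponent_le h4.le (min_le_right _ _)
        rw [Real.rpow_one] at h5
        have h6 : Real.log N ≤ Real.log N₃ := Real.log_le_log hN0 h2
        linarith
    have h4 : 0 < Real.log N ^ δ' := Real.rpow_pos_of_pos hlogN0 _
    rw [le_div_iff₀ h4]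
    have h5 : (({c : ℕ | 1 ≤ c ∧ c ≤ N ∧ ¬ 2 ∣ c ∧ D2 c}.ncard : ℕ) : ℝ) ≤ N := by
      exact_mod_cast h1
    have hN1 : (1 : ℝ) ≤ N₃ := by
      have : 1 ≤ N₃ := by omega
      exact_mod_cast this
    calc (({c : ℕ | 1 ≤ c ∧ c ≤ N ∧ ¬ 2 ∣ c ∧ D2 c}.ncard : ℕ) : ℝ) * Real.log N ^ δ'
        ≤ N * (1 + Real.log N₃) := by
          apply mul_le_mul h5 h3 h4.le hN0.le
      _ ≤ (N₃ * (1 + Real.log N₃)) * N := by
          have : 0 ≤ (1 + Real.log (N₃ : ℝ)) * N := by positivity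
          nlinarith
      _ ≤ (1 + |C₄| + |C₃| + N₃ * (1 + Real.log N₃)) * N := by
          have := abs_nonneg C₄
          have := abs_nonneg C₃
          nlinarith
  · have hNN1 : N₁ ≤ N := by omega
    have hNN2 : N₂ ≤ N := by omega
    have hNN0 : N₀ ≤ N := by omega
    have hN3 : 3 ≤ N := by omega
    obtain ⟨hexp, hL1⟩ := hN₂ N hNN2
    set L : ℝ := Real.log N with hLdef
    have hA := hN₀ N hNN0
    have hB := hCl N hN
    have hCC := hP N hN
    set S1 := {c : ℕ | 1 ≤ c ∧ c ≤ N ∧ ∃ u v k l A : ℕ, c = u * v ∧ 1 ≤ u ∧ u < v ∧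
      Nat.Coprime u v ∧
      ¬ 2 ∣ u ∧ ¬ 2 ∣ v ∧ 1 ≤ k ∧ l.Prime ∧ Real.log l ≤ Real.log N ^ (1 - 1 / 60 : ℝ) ∧
      EqO u v k l A} with hS1
    set S2 := {c : ℕ | 1 ≤ c ∧ c ≤ N ∧ ∃ u v : ℕ, c = u * v ∧ 1 ≤ u ∧ u < v ∧
      Real.log N * (Real.log v - Real.log u) < 1} with hS2
    set S3 := {c : ℕ | 1 ≤ c ∧ c ≤ N ∧ ¬ 2 ∣ c ∧ ∃ u v w : ℕ, c = u * v ∧ Nat.Coprime u v ∧
      u < v ∧ (v + u = 2 * w ∨ v = u + 2 * w) ∧
      ∀ p : ℕ, p.Prime → (p : ℝ) ≤ Real.exp (Real.log N ^ (1 - 1 / 30 : ℝ)) → ¬ p ∣ w} with hS3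
    have hf1 : S1.Finite := (Set.finite_Icc 1 N).subset fun c hc => ⟨hc.1, hc.2.1⟩
    have hf2 : S2.Finite := (Set.finite_Icc 1 N).subset fun c hc => ⟨hc.1, hc.2.1⟩
    have hf3 : S3.Finite := (Set.finite_Icc 1 N).subset fun c hc => ⟨hc.1, hc.2.1⟩
    have hsub : {c : ℕ | 1 ≤ c ∧ c ≤ N ∧ ¬ 2 ∣ c ∧ D2 c} ⊆ S1 ∪ (S2 ∪ S3) := by
      rintro c ⟨hc1, hcN, h2c, hD⟩
      rcases key N hNN1 hN3 c hc1 hcN h2c hD with h | h | h
      · exact Or.inl ⟨hc1, hcN, h⟩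
      · exact Or.inr (Or.inl ⟨hc1, hcN, h⟩)
      · exact Or.inr (Or.inr ⟨hc1, hcN, h2c, h⟩)
    have hcard : ({c : ℕ | 1 ≤ c ∧ c ≤ N ∧ ¬ 2 ∣ c ∧ D2 c}.ncard) ≤
        S1.ncard + (S2.ncard + S3.ncard) := by
      refine (Set.ncard_le_ncard hsub (hf1.union (hf2.union hf3))).trans ?_
      refine (Set.ncard_union_le _ _).trans ?_
      exact Nat.add_le_add_left (Set.ncard_union_le _ _) _
    have hcardR : (({c : ℕ | 1 ≤ c ∧ c ≤ N ∧ ¬ 2 ∣ c ∧ D2 c}.ncard : ℕ) : ℝ) ≤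
        S1.ncard + (S2.ncard + S3.ncard) := by exact_mod_cast hcard
    have hLd : 0 < L ^ δ' := Real.rpow_pos_of_pos hlogN0 _
    have hLd1 : L ^ δ' ≤ L := by
      calc L ^ δ' ≤ L ^ (1 : ℝ) := Real.rpow_le_rpow_of_exponent_le hL1 (min_le_right _ _)
        _ = L := Real.rpow_one L
    have hLd2 : L ^ δ' ≤ L ^ δ := Real.rpow_le_rpow_of_exponent_le hL1 (min_le_left _ _)
    have e1 : (S1.ncard : ℝ) ≤ 1 * N / L ^ δ' := by
      refine hA.trans ?_
      rw [Real.rpow_sub hN0, Real.rpow_one, one_mul]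
      apply div_le_div_of_nonneg_left hN0.le hLd
      refine hLd1.trans (hexp.trans ?_)
      rw [Real.rpow_def_of_pos hN0, mul_comm]
    have e2 : (S2.ncard : ℝ) ≤ |C₄| * N / L ^ δ' := by
      refine hB.trans ?_
      calc C₄ * N / L ≤ |C₄| * N / L := by
            gcongr
            exact le_abs_self _
        _ ≤ |C₄| * N / L ^ δ' := by
            apply div_le_div_of_nonneg_left (by positivity) hLd hLd1
    have e3 : (S3.ncard : ℝ) ≤ |C₃| * N / L ^ δ' := by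
      refine hCC.trans ?_
      calc C₃ * N / L ^ δ ≤ |C₃| * N / L ^ δ := by
            gcongr
            exact le_abs_self _
        _ ≤ |C₃| * N / L ^ δ' := by
            apply div_le_div_of_nonneg_left (by positivity) hLd hLd2
    calc (({c : ℕ | 1 ≤ c ∧ c ≤ N ∧ ¬ 2 ∣ c ∧ D2 c}.ncard : ℕ) : ℝ)
        ≤ 1 * N / L ^ δ' + (|C₄| * N / L ^ δ' + |C₃| * N / L ^ δ') := by linarith
      _ = (1 + |C₄| + |C₃|) * N / L ^ δ' := by ring
      _ ≤ (1 + |C₄| + |C₃| + N₃ * (1 + Real.log N₃)) * N / L ^ δ' := by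
          have h9 : 0 ≤ (N₃ : ℝ) * (1 + Real.log N₃) :=
            mul_nonneg (Nat.cast_nonneg _) (by linarith)
          apply div_le_div_of_nonneg_right _ hLd.le
          apply mul_le_mul_of_nonneg_right _ hN0.le
          linarith

end Pool.Agent.Work.MP_2738db_nt_C.helper1.FINO

open Pool.Agent.Work.MP_2738db_nt_C in
/-- **FINO** -/
theorem Pool.Agent.Work.MP_2738db_nt_C.helper1.fo (hSto : Stmt_Sto) (hSvo : Stmt_Svo)
    (hXo1 : Stmt_Xo1) (hXo2 : Stmt_Xo2) (hXo3 : Stmt_Xo3) (hPsv : Stmt_Psv) (hCls : Stmt_Cls) :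
    Stmt_Fo :=
  Pool.Agent.Work.MP_2738db_nt_C.helper1.FINO.fo_aux hSto hSvo hXo1 hXo2 hXo3 hPsv hCls
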