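import Pool.Agent.Work.MP_2738db_nt_C.Interface
import Pool.Agent.Work.MP_2738db_nt_Z_helper40.STEPG
import Pool.Agent.Work.MP_2738db_nt_U_helper93.ARL

set_option autoImplicit false

namespace Pool.Agent.Work.MP_2738db_nt_C.helper1.XE

open Finset

theorem odd_geom (x : ℤ) (hx : Odd x) (l : ℕ) (hl : Odd l) : Odd (∑ i ∈ range l, x ^ i) := by
  have key : ∀ m : ℕ, ∃ t : ℤ, ∑ i ∈ range m, x ^ i = m + 2 * t := by
    intro m
    induction m with
    | zero => exact ⟨0, by simp⟩
    | succ m ih =>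
      obtain ⟨t, ht⟩ := ih
      obtain ⟨w, hw⟩ := hx.pow (n := m)
      refine ⟨t + w, ?_⟩
      rw [sum_range_succ, ht, hw]
      push_cast
      ring
  obtain ⟨t, ht⟩ := key l
  obtain ⟨w, hw⟩ := hl
  rw [ht, hw]
  exact ⟨w + t, by push_cast; ring⟩

/-- the case `u = 1` -/
theorem two_pow_le (A B l s : ℕ) (ε : ℤ) (hε : ε = 1 ∨ ε = -1) (hA : 2 ≤ A) (hl : Odd l)
    (h : (A : ℤ) ^ l = B + ε) (hB : 2 ^ s ∣ B) (hs : 1 ≤ s) : 2 ^ s ≤ A + 1 := by
  have hB2 : Even (B : ℤ) := by
    have h2 : (2 : ℕ) ∣ B := (dvd_pow_self 2 (by omega)).trans hB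
    exact even_iff_two_dvd.mpr (by exact_mod_cast h2)
  have hεodd : Odd ε := by
    rcases hε with rfl | rfl <;> decide
  have hAodd : Odd (A : ℤ) := by
    have h1 : Odd ((A : ℤ) ^ l) := by
      rw [h]
      exact hB2.add_odd hεodd
    by_contra hcon
    have h2 := Int.not_odd_iff_even.mp hcon
    have h3 : Even ((A : ℤ) ^ l) := by
      apply h2.pow_of_ne_zero
      rintro rfl
      simp at hl
    exact (Int.not_odd_iff_even.mpr h3) h1
  have hxodd : Odd (ε * (A : ℤ)) := hεodd.mul hAodd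
  have hgeom := odd_geom (ε * A) hxodd l hl
  have hε2 : ε ^ l = ε := by
    rcases hε with rfl | rfl
    · simp
    · exact hl.neg_one_pow
  have hεε : ε * ε = 1 := by
    rcases hε with rfl | rfl <;> norm_num
  have hprod : (ε * (A : ℤ) - 1) * ∑ i ∈ range l, (ε * (A : ℤ)) ^ i = ε * B := by
    have h1 := mul_geom_sum (ε * (A : ℤ)) l
    rw [h1, mul_pow, hε2, h]
    linear_combination hεε
  have hdvd : (2 : ℤ) ^ s ∣ (ε * (A : ℤ) - 1) * ∑ i ∈ range l, (ε * (A : ℤ)) ^ i := by
    rw [hprod]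
    apply Dvd.dvd.mul_left
    exact_mod_cast hB
  have hcop : IsCoprime ((2 : ℤ) ^ s) (∑ i ∈ range l, (ε * (A : ℤ)) ^ i) := by
    apply IsCoprime.pow_left
    rw [Int.isCoprime_iff_gcd_eq_one]
    rw [← Int.isCoprime_iff_gcd_eq_one]
    obtain ⟨t, ht⟩ := hgeom
    refine ⟨-t, 1, ?_⟩
    rw [ht]
    ring
  have hdvd2 : (2 : ℤ) ^ s ∣ ε * (A : ℤ) - 1 := hcop.dvd_of_dvd_mul_right hdvd
  have hne : ε * (A : ℤ) - 1 ≠ 0 := by
    rcases hε with rfl | rfl
    · have : (2 : ℤ) ≤ A := by exact_mod_cast hA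
      omega
    · have : (2 : ℤ) ≤ A := by exact_mod_cast hA
      omega
  have hle := Int.le_of_dvd (abs_pos.mpr hne) ((dvd_abs _ _).mpr hdvd2)
  have hle2 : |ε * (A : ℤ) - 1| ≤ A + 1 := by
    rcases hε with rfl | rfl
    · rw [abs_le]
      have : (2 : ℤ) ≤ A := by exact_mod_cast hA
      constructor <;> omega
    · rw [abs_le]
      have : (2 : ℤ) ≤ A := by exact_mod_cast hA
      constructor <;> omega
  have : (2 : ℤ) ^ s ≤ A + 1 := hle.trans hle2
  exact_mod_cast this

theorem u_one (A B l s : ℕ) (U : ℝ) (ε : ℤ) (hε : ε = 1 ∨ ε = -1) (hA : 2 ≤ A) (hl : Odd l)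
    (h : (A : ℤ) ^ l = B + ε) (hB : 2 ^ s ∣ B) (hs : 1 ≤ s) (hU : 1 ≤ U) (hB1 : 2 ≤ B)
    (hBU : Real.log B ≤ s * (3 * U)) (hlU : 36 * U ^ 2 < l) : False := by
  have h2 := two_pow_le A B l s ε hε hA hl h hB hs
  have h3 : 2 ^ s ≤ A ^ 2 := by nlinarith
  have hlog2 : (0.69 : ℝ) < Real.log 2 := by
    have := Real.log_two_gt_d9
    linarith
  have hA0 : (0 : ℝ) < A := by
    have : 0 < A := by omega
    exact_mod_cast this
  have hlA : Real.log 2 ≤ Real.log A := Real.log_le_log (by norm_num) (by exact_mod_cast hA)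
  have h4 : (s : ℝ) * Real.log 2 ≤ 2 * Real.log A := by
    have h5 : Real.log ((2 : ℝ) ^ s) ≤ Real.log ((A : ℝ) ^ 2) := by
      apply Real.log_le_log (by positivity)
      exact_mod_cast h3
    rw [Real.log_pow, Real.log_pow] at h5
    exact_mod_cast h5
  have h6 : (l : ℝ) * Real.log A ≤ Real.log 2 + Real.log B := by
    have h7 : (A : ℤ) ^ l ≤ 2 * B := by
      rw [h]
      have : (2 : ℤ) ≤ B := by exact_mod_cast hB1
      rcases hε with rfl | rfl <;> omega
    have h8 : ((A : ℝ)) ^ l ≤ 2 * B := by exact_mod_cast h7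
    have hB0 : (0 : ℝ) < B := by
      have : 0 < B := by omega
      exact_mod_cast this
    have h9 := Real.log_le_log (by positivity) h8
    rw [Real.log_pow, Real.log_mul (by norm_num) (by positivity)] at h9
    exact h9
  have hs0 : (0 : ℝ) ≤ s := Nat.cast_nonneg s
  have h10 : (s : ℝ) ≤ 2 * Real.log A / Real.log 2 := by
    rw [le_div_iff₀ (by linarith)]
    exact h4
  have h11 : (s : ℝ) ≤ 3 * Real.log A := by
    nlinarith
  have hUsq : U ≤ U ^ 2 := by nlinarith
  have h12 : (l : ℝ) * Real.log A ≤ Real.log A + 9 * U * Real.log A := by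
    nlinarith
  have hlApos : 0 < Real.log A := by linarith
  have h13 : (l : ℝ) ≤ 1 + 9 * U := by
    have : (l : ℝ) * Real.log A ≤ (1 + 9 * U) * Real.log A := by linarith
    exact le_of_mul_le_mul_right this hlApos
  nlinarith

theorem xe_aux : Stmt_Xe := by
  obtain ⟨C, hC, hG⟩ := Pool.Agent.Work.MP_2738db_nt_Z.helper40.stepG
    Pool.Agent.Work.MP_2738db_nt_U.helper93.stmt_ARL
  refine ⟨36 * C, by linarith, ?_⟩
  intro u V k l A U hu hV hcop hu2 h8 hk hl hA hU huU hVU hbig hEq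
  have hl2 : (2 : ℝ) ≤ l := by exact_mod_cast hl.two_le
  have hlogl : 0 ≤ Real.log l := Real.log_nonneg (by linarith)
  have hbig36 : 36 * U ^ 2 < l := by
    have h1 : (1 : ℝ) ≤ (1 + Real.log l) ^ 2 := by nlinarith
    have h2 : 36 * U ^ 2 * 1 ≤ 36 * C * U ^ 2 * (1 + Real.log l) ^ 2 := by
      apply mul_le_mul _ h1 (by norm_num) (by positivity)
      nlinarith [sq_nonneg U]
    linarith
  -- B = V^k / 4
  obtain ⟨B, hB⟩ : ∃ B, V ^ k = 4 * B := (show 4 ∣ 8 by norm_num).trans h8
  have hB2 : 2 ∣ B := by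
    rw [hB] at h8
    have : 4 * 2 ∣ 4 * B := h8
    exact Nat.dvd_of_mul_dvd_mul_left (by norm_num) this
  have hVpos : 0 < V ^ k := by positivity
  have hBpos : 0 < B := by omega
  have hB1 : 2 ≤ B := Nat.le_of_dvd hBpos hB2
  have hV2 : 2 ∣ V := by
    have : 2 ∣ V ^ k := (show 2 ∣ 8 by norm_num).trans h8
    exact Nat.prime_two.dvd_of_dvd_pow this
  have hV0 : V ≠ 0 := by omega
  have hval : k * padicValNat 2 V = 2 + padicValNat 2 B := by
    have h1 := padicValNat.pow (p := 2) V k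
    rw [hB] at h1
    have h2 : padicValNat 2 (4 * B) = 2 + padicValNat 2 B := by
      rw [padicValNat.mul (by norm_num) (by omega)]
      congr 1
      have : padicValNat 2 (2 ^ 2) = 2 := padicValNat.prime_pow 2
      simpa using this
    omega
  have hvV : 1 ≤ padicValNat 2 V := one_le_padicValNat_of_dvd hV0 hV2
  have hvB : 1 ≤ padicValNat 2 B := one_le_padicValNat_of_dvd (by omega) hB2
  set s := padicValNat 2 B with hs
  have hks : k ≤ 3 * s := by
    have : k * 1 ≤ k * padicValNat 2 V := Nat.mul_le_mul_left k hvV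
    omega
  have hksR : (k : ℝ) ≤ 3 * s := by exact_mod_cast hks
  have hU0 : 0 < U := by linarith
  have hlogB : Real.log B ≤ (s : ℝ) * (3 * U) := by
    have hBR : (0 : ℝ) < B := by exact_mod_cast hBpos
    have h1 : (B : ℝ) ≤ (V : ℝ) ^ k := by
      have : B ≤ V ^ k := by omega
      exact_mod_cast this
    have h2 := Real.log_le_log hBR h1
    rw [Real.log_pow] at h2
    have h3 : (k : ℝ) * Real.log V ≤ k * U := by
      apply mul_le_mul_of_nonneg_left hVU (Nat.cast_nonneg k)
    have h4 : (k : ℝ) * U ≤ (3 * s) * U := by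
      apply mul_le_mul_of_nonneg_right hksR hU0.le
    nlinarith
  have hred : u ^ k + B = A ^ l ∨ u ^ k = B + A ^ l ∨ B = u ^ k + A ^ l := by
    rcases hEq with h | h | h
    · left; omega
    · right; left; omega
    · right; right; omega
  rcases Nat.lt_or_ge 1 u with hu1 | hu1
  · have hBcop : Nat.Coprime B u := by
      have h1 : Nat.Coprime (V ^ k) u := (hcop.symm).pow_left k
      rw [hB] at h1
      exact Nat.Coprime.coprime_mul_left h1
    have h3U : 1 ≤ 3 * U := by linarith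
    have := hG A B u k l 2 2 (3 * U) hA (by omega) hu1 hBcop hk hl Nat.prime_two (by norm_num)
      (by norm_num) h3U (by linarith) hlogB (by
        have : C * 2 ^ 2 * (3 * U) ^ 2 * (1 + Real.log l) ^ 2 =
          36 * C * U ^ 2 * (1 + Real.log l) ^ 2 := by ring
        rw [this]
        exact hbig)
    obtain ⟨h1, h2, h3⟩ := this
    rcases hred with h | h | h
    · apply h2; omega
    · apply h1; omega
    · apply h3; omega
  · have hu1' : u = 1 := by omega
    subst hu1'
    rw [one_pow] at hred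
    have hlodd : Odd l := by
      rcases hl.eq_two_or_odd' with h | h
      · rw [h] at hbig36
        push_cast at hbig36
        nlinarith
      · exact h
    have hpow : 2 ^ s ∣ B := pow_padicValNat_dvd
    rcases hred with h | h | h
    · exact u_one A B l s U 1 (Or.inl rfl) hA hlodd (by
        have : A ^ l = B + 1 := by omega
        exact_mod_cast this) hpow hvB hU hB1 hlogB hbig36
    · have : 1 ≤ A ^ l := Nat.one_le_pow _ _ (by omega)
      omega
    · exact u_one A B l s U (-1) (Or.inr rfl) hA hlodd (by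
        have : A ^ l = B - 1 := by omega
        have h2 : (A ^ l : ℕ) + 1 = B := by omega
        have h3 : ((A : ℤ)) ^ l + 1 = B := by exact_mod_cast h2
        linarith) hpow hvB hU hB1 hlogB hbig36

end Pool.Agent.Work.MP_2738db_nt_C.helper1.XE

theorem Pool.Agent.Work.MP_2738db_nt_C.helper1.xe : Pool.Agent.Work.MP_2738db_nt_C.Stmt_Xe :=
  Pool.Agent.Work.MP_2738db_nt_C.helper1.XE.xe_aux
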