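import Pool.Agent.Work.MP_2738db_nt_C_helper1.GEN
import Pool.Agent.Work.MP_2738db_nt_C_helper24.STO
import Pool.Agent.Work.MP_2738db_nt_C_helper2.STE
import Pool.Agent.Work.MP_2738db_nt_C_helper26.SVE
import Pool.Agent.Work.MP_2738db_nt_C_helper1.XE
import Pool.Agent.Work.MP_2738db_nt_C_helper2.KE
import Pool.Agent.Work.MP_2738db_nt_C_helper87.FINE
import Pool.Agent.Work.MP_2738db_nt_C_helper87.RED
import Pool.Agent.Work.MP_2738db_nt_C_helper83.NDL
import Pool.Agent.Work.MP_2738db_nt_C_helper40.SVO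
import Pool.Agent.Work.MP_2738db_nt_C_helper31.TLC
import Pool.Agent.Work.MP_2738db_nt_C_helper79.XO1
import Pool.Agent.Work.MP_2738db_nt_C_helper17.FAC
import Pool.Agent.Work.MP_2738db_nt_C_helper17.XO2
import Pool.Agent.Work.MP_2738db_nt_C_helper5.XO3
import Pool.Agent.Work.MP_2738db_nt_C_helper31.BON
import Pool.Agent.Work.MP_2738db_nt_C_helper81.MER
import Pool.Agent.Work.MP_2738db_nt_C_helper18.BRS
import Pool.Agent.Work.MP_2738db_nt_C_helper29.P3
import Pool.Agent.Work.MP_2738db_nt_C_helper29.P4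
import Pool.Agent.Work.MP_2738db_nt_C_helper35.PSV
import Pool.Agent.Work.MP_2738db_nt_C_helper96.CLS
import Pool.Agent.Work.MP_2738db_nt_C_helper1.FINO
import Pool.Agent.Work.MP_2738db_nt_C_helper81.FINC
import Pool.Agent.Work.MP_2738db_nt_ZZ_helper16.AllZ
import Pool.Agent.Work.MP_2738db_nt_ZZ_helper46.P2
import Pool.Agent.Work.MP_2738db_nt_S_helper1.FinalFS
import Pool.Agent.Work.MP_2738db_nt_Y_helper45.ARQ
import Pool.Agent.Work.MP_2738db_nt_Y_helper93.ARG2
import Pool.Agent.Work.MP_2738db_nt_Y_helper76.GFAC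

/-!
COPRIME EXPONENTS: all blocks together.
-/

set_option autoImplicit false

namespace Pool.Agent.Work.MP_2738db_nt_C.helper1

open Pool.Agent.Work
open Pool.Agent.Work.MP_2738db_nt_C

theorem final_Gen : Stmt_Gen :=
  gen MP_2738db_nt_Z.helper55.stmt_Mom
    (MP_2738db_nt_X.helper46.stmt_Dpq MP_2738db_nt_X.helper79.stmt_Sux
      MP_2738db_nt_X.helper37.stmt_SMQ)

theorem final_Fe : Stmt_Fe :=
  helper87.fe helper2.ste (helper26.sve final_Gen MP_2738db_nt_U.helper15.stmt_Loc)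
    helper1.xe (helper2.ke MP_2738db_nt_S.helper1.final_WS)

theorem final_Tlc : Stmt_Tlc := helper31.tlc MP_2738db_nt_Y.helper45.arq

theorem final_Psv : Stmt_Psv :=
  helper35.psv (helper18.brs helper31.bon helper81.mer) (helper29.p3 helper81.mer)
    (helper29.p4 helper81.mer)

theorem final_Fo : Stmt_Fo :=
  helper1.fo helper24.sto
    (helper40.svo final_Gen MP_2738db_nt_U.helper15.stmt_Loc helper87.red helper83.ndl)
    (helper79.xo1 final_Tlc MP_2738db_nt_Y.helper93.stmt_Arg MP_2738db_nt_Y.helper76.gfac)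
    (helper17.xo2 final_Tlc helper17.fac) helper5.xo3 final_Psv helper96.cls

/-- COPRIME EXPONENTS, all inputs proved -/
theorem final_CC : Stmt_CC :=
  helper81.finc MP_2738db_nt_ZZ.helper16.main_zz MP_2738db_nt_ZZ.helper46.stmt_P2 final_Fe final_Fo

end Pool.Agent.Work.MP_2738db_nt_C.helper1
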