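import Pool.Agent.Work.MP_2738db_nt_C.Interface
import Pool.Agent.Work.MP_2738db_nt_X_helper40.Core

/-!
GEN: the general sieve (from Stmt_Dpq and Stmt_Mom).
-/

set_option autoImplicit false

namespace Pool.Agent.Work.MP_2738db_nt_C.helper1

open Finset Filter
open Pool.Agent.Work.MP_2738db_nt_C
open Pool.Agent.Work.MP_2738db_nt_U (PY LM)
open Pool.Agent.Work.MP_2738db_nt_Z (PR DQ KZ Stmt_Mom)
open Pool.Agent.Work.MP_2738db_nt_X (Stmt_Dpq)
open Pool.Agent.Work.MP_2738db_nt_Z.helper40 (GoodD Qs mem_Qs Qs_card Qs_dvd KZ_bounds)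
open Pool.Agent.Work.MP_2738db_nt_X.helper40 (gcd_smallX NumX numericX set_numX)
open Pool.Agent.Work.MP_2738db_nt_U.helper40 (prod_PY_le mem_PY omega_le ev_pow ev_log ev_exp)

/-- the sieve bound for a set `Q` with many primes -/
lemma sv_of_mom (hM : Stmt_Mom) {γ γ1 u t : ℝ} (hu3 : 3 ≤ u) (ht4 : 4 ≤ t) (ht : 16 * t ≤ u)
    (hrr : 72 * u ^ 2 ≤ Real.exp (γ * t / 2)) (hγ : 0 < γ) (hγ1 : 0 < γ1) (hg1 : γ1 ≤ γ / 32)
    (hg2 : γ1 ≤ 1 / 2) (h2 : 2 ≤ Real.exp (γ1 / 2 * u)) {M : ℕ} (hN : (M : ℝ) = Real.exp u)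
    (Q : Finset ℕ) (hQp : ∀ q ∈ Q, q.Prime ∧ (q : ℝ) ≤ Real.exp t)
    (hcard : Real.exp (γ * t) / 2 ≤ (Q.card : ℝ)) : Sv M (γ1 / 2) Q := by
  intro R hR
  have hQne : Q.Nonempty := by
    rw [← Finset.card_pos]
    have : (0 : ℝ) < (Q.card : ℝ) := lt_of_lt_of_le (by positivity) hcard
    exact_mod_cast this
  obtain ⟨hr1, hsz⟩ := set_numX hu3 ht4 ht hrr hγ hγ1 hg1 hg2 hcard
    (z := ⌊Real.exp t⌋₊) (Nat.floor_le (Real.exp_pos t).le)
  have h1 := hM Q ⌊Real.exp t⌋₊ M ⌊u / (8 * t)⌋₊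
    (fun q hq => ⟨(hQp q hq).1, Nat.le_floor (hQp q hq).2⟩) hQne hr1
    (fun q x => R q (x : ZMod q)) (by
      intro q _ c c' hcc hs
      rw [← hcc]; exact hs) (by
      intro q hq
      haveI : Fact q.Prime := ⟨(hQp q hq).1⟩
      refine le_trans (Nat.mul_le_mul_left 6 ?_) (hR q hq)
      apply Nat.card_le_card_of_injective
        (fun x : {x : Fin q // R q ((((x : Fin q) : ℕ)) : ZMod q)} =>
          (⟨((((x : Fin q) : ℕ)) : ZMod q), x.2⟩ : {x : ZMod q // R q x}))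
      intro x x' hxx
      have h3 : ((((x : Fin q) : ℕ)) : ZMod q) = ((((x' : Fin q) : ℕ)) : ZMod q) :=
        congrArg Subtype.val hxx
      have h4 := (ZMod.natCast_eq_natCast_iff' _ _ _).mp h3
      rw [Nat.mod_eq_of_lt x.1.2, Nat.mod_eq_of_lt x'.1.2] at h4
      exact Subtype.ext (Fin.ext h4))
  have h3 : ({t : ℕ | 1 ≤ t ∧ t ≤ M ∧ ∀ q ∈ Q, R q (t : ZMod q)}.ncard : ℝ) =
      (Nat.card {c : ℕ // 1 ≤ c ∧ c ≤ M ∧ ∀ q ∈ Q, R q (c : ZMod q)} : ℝ) := by
    rw [← Nat.card_coe_set_eq]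
    rfl
  rw [h3]
  refine h1.trans ?_
  rw [hN]
  refine hsz.trans ?_
  rw [← Real.exp_mul]
  have h4 : Real.exp (u * (1 - γ1 / 2)) = Real.exp (γ1 / 2 * u) * Real.exp ((1 - γ1) * u) := by
    rw [← Real.exp_add]; congr 1; ring
  rw [h4]
  exact mul_le_mul_of_nonneg_right h2 (Real.exp_pos _).le

/-- the number of primes in `(y, 2y]` -/
lemma card_PY_log {y : ℝ} (hy : 1 ≤ y) : ((PY y).card : ℝ) * Real.log y ≤ 2 * y * Real.log 4 := by
  have hy0 : 0 ≤ y := by linarith
  have h1 := prod_PY_le hy0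
  have h2 : y ^ (PY y).card ≤ ((∏ r ∈ PY y, r : ℕ) : ℝ) := by
    rw [← prod_const]
    push_cast
    exact prod_le_prod (fun _ _ => hy0) (fun r hr => (mem_PY hy0 hr).2.1.le)
  have h3 := Real.log_le_log (by positivity) (h2.trans h1)
  rwa [Real.log_pow, Real.log_exp] at h3

lemma omega_LM {y : ℝ} (hy : 0 ≤ y) {l k₀ : ℕ} (hl : 1 ≤ l) (hk : 1 ≤ k₀) :
    (LM y l k₀).primeFactors.card ≤ (2 * l * k₀).primeFactors.card + (PY y).card := by
  unfold LM
  have h1 : 2 * l * k₀ ≠ 0 := by positivity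
  have h2 : (∏ r ∈ PY y, r) ≠ 0 :=
    (Finset.prod_pos fun r hr => (mem_PY hy hr).1.pos).ne'
  rw [Nat.primeFactors_mul h1 h2]
  refine (card_union_le _ _).trans (Nat.add_le_add_left ?_ _)
  apply card_le_card
  intro p hp
  have hpp := Nat.prime_of_mem_primeFactors hp
  obtain ⟨r, hr, hpr⟩ := (Prime.dvd_finset_prod_iff hpp.prime _).1 (Nat.dvd_of_mem_primeFactors hp)
  rw [(Nat.prime_dvd_prime_iff_eq hpp (mem_PY hy hr).1).1 hpr]
  exact hr

/-- the numerical facts for GEN -/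
structure NumG (e κ T γ : ℝ) (u : ℝ) : Prop where
  num : NumX e 1 1 T (γ / 2) (κ / 10) u (Real.exp (u ^ (1 - e)))
    (u ^ (1 - e / 2)) (u ^ (1 - e / 4)) (Real.exp (u ^ (1 - 3 * e / 4)))
  h2 : 2 ≤ Real.exp (10 * κ * u)
  h3 : Real.log (10 * u) * (2 + 6 * u ^ (1 - e / 2)) ≤ u ^ (1 - e / 4)
  h4 : Real.log (10 * u) ≤ 2 * Real.log (u ^ (1 - e / 4))

theorem numericG (e κ T γ : ℝ) (he0 : 0 < e) (he1 : e < 1) (hκ : 0 < κ) (hγ : 0 < γ) :
    ∃ u0 : ℝ, ∀ u : ℝ, u0 ≤ u → NumG e κ T γ u := by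
  obtain ⟨v0, hv0⟩ := numericX e 1 1 T (γ / 2) (κ / 10) he0 he1 (by positivity) (by positivity)
  have e1 := eventually_ge_atTop v0
  have e2 := ev_pow 8 (show (1 - e / 2 + e / 8 : ℝ) < 1 - e / 4 by linarith)
  have e3 := ev_log 1 (show (0 : ℝ) < e / 16 by linarith)
  have e4 := ev_pow (Real.log 10 + 1) (show (e / 16 : ℝ) < e / 8 by linarith)
  have e5 := eventually_ge_atTop (max (Real.exp (Real.log 10 * 2 + 1)) (1 / (10 * κ)))
  obtain ⟨u0, hu0⟩ := eventually_atTop.mp (((e1.and e2).and e3).and (e4.and e5))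
  refine ⟨u0, fun u hu => ?_⟩
  obtain ⟨⟨⟨f1, f2⟩, f3⟩, f4, f5⟩ := hu0 u hu
  have num := hv0 _ f1
  have hu3 : 3 ≤ u := num.u1
  have hu1 : 1 ≤ u := by linarith
  have hu00 : 0 < u := by linarith
  have hlu : 0 ≤ Real.log u := Real.log_nonneg hu1
  have hl10 : 0 ≤ Real.log 10 := Real.log_nonneg (by norm_num)
  have hl10u : Real.log (10 * u) = Real.log 10 + Real.log u := by
    rw [Real.log_mul (by norm_num) hu00.ne']
  have g1 : 1 ≤ u ^ (e / 16) := Real.one_le_rpow hu1 (by linarith)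
  have g2 : 1 ≤ u ^ (1 - e / 2) := Real.one_le_rpow hu1 (by linarith)
  refine ⟨num, ?_, ?_, ?_⟩
  · have h1 : 1 ≤ 10 * κ * u := by
      have := (le_max_right _ _).trans f5
      rw [div_le_iff₀ (by positivity)] at this
      linarith
    have h2 := Real.add_one_le_exp (10 * κ * u)
    linarith
  · have h1 : Real.log (10 * u) ≤ u ^ (e / 8) := by
      rw [hl10u]
      refine le_trans ?_ f4
      have : Real.log 10 + Real.log u ≤ Real.log 10 * u ^ (e / 16) + u ^ (e / 16) := by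
        nlinarith
      linarith
    have h2 : 2 + 6 * u ^ (1 - e / 2) ≤ 8 * u ^ (1 - e / 2) := by linarith
    calc Real.log (10 * u) * (2 + 6 * u ^ (1 - e / 2))
        ≤ u ^ (e / 8) * (8 * u ^ (1 - e / 2)) := by
          apply mul_le_mul h1 h2 (by positivity) (by positivity)
      _ = 8 * u ^ (1 - e / 2 + e / 8) := by
          rw [Real.rpow_add hu00]; ring
      _ ≤ _ := f2
  · have h1 : Real.log 10 * 2 + 1 ≤ Real.log u := by
      rw [Real.le_log_iff_exp_le hu00]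
      exact (le_max_left _ _).trans f5
    rw [Real.log_rpow hu00, hl10u]
    nlinarith

theorem gen (hM : Stmt_Mom) (hD : Stmt_Dpq) : Stmt_Gen := by
  classical
  intro ε hε0 hε1
  obtain ⟨γ, hγ, T, hDp⟩ := hD (ε / 4) (by linarith) (by linarith)
  set γ1 : ℝ := min (γ / 32) (1 / 2) with hγ1d
  have hg1 : γ1 ≤ γ / 32 := min_le_left _ _
  have hg2 : γ1 ≤ 1 / 2 := min_le_right _ _
  have hγ1 : 0 < γ1 := lt_min (by positivity) (by norm_num)
  set κ : ℝ := γ1 / 20 with hκd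
  have hκ : 0 < κ := by positivity
  have hκγ : 10 * κ = γ1 / 2 := by rw [hκd]; ring
  obtain ⟨u0, hu0⟩ := numericG ε κ T γ hε0 hε1 hκ hγ
  refine ⟨κ, hκ, by linarith, ⌈Real.exp u0⌉₊ + 1, ?_⟩
  intro M P hMM hP hPM
  have hM0 : 0 < M := by omega
  have hM0r : (0 : ℝ) < M := by exact_mod_cast hM0
  set u := Real.log M with hu
  have huu : u0 ≤ u := by
    rw [hu, Real.le_log_iff_exp_le hM0r]
    have h1 := Nat.le_ceil (Real.exp u0)
    have h2 : ((⌈Real.exp u0⌉₊ : ℕ) : ℝ) ≤ M := by exact_mod_cast (by omega : ⌈Real.exp u0⌉₊ ≤ M)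
    linarith
  have hNG := hu0 u huu
  have num := hNG.num
  have hu3 : 3 ≤ u := num.u1
  have hu00 : 0 < u := by linarith
  have hu1 : 1 ≤ u := by linarith
  have hMe : (M : ℝ) = Real.exp u := by rw [hu, Real.exp_log hM0r]
  set W := Real.exp (u ^ (1 - ε)) with hW
  set t := u ^ (1 - ε / 2) with ht
  set y := u ^ (1 - ε / 4) with hy
  set Lam := Real.exp (u ^ (1 - 3 * ε / 4)) with hLam
  have hy3 := num.y3
  have ht4 := num.t4
  have hy0 : 0 ≤ y := by linarith
  have ht16 : 16 * t ≤ u := num.ht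
  have htpos : 0 < t := by linarith
  have hyu : y ≤ u := by
    calc y ≤ u ^ (1 : ℝ) := Real.rpow_le_rpow_of_exponent_le hu1 (by linarith)
      _ = u := Real.rpow_one _
  have hrr : 72 * u ^ 2 ≤ Real.exp (γ * t / 2) := by
    refine num.hr.trans (Real.exp_le_exp.2 ?_)
    have : 0 < γ * t := by positivity
    linarith
  have hrr4 : 72 * u ^ 2 ≤ Real.exp (γ * t / 4) := by
    refine num.hr.trans (Real.exp_le_exp.2 ?_)
    linarith
  have hlog4 : Real.log 4 ≤ 14 / 10 := by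
    have : Real.log 4 = 2 * Real.log 2 := by
      rw [show (4 : ℝ) = 2 ^ 2 by norm_num, Real.log_pow]; norm_num
    have := Real.log_two_lt_d9
    linarith
  have hlog40 : 0 ≤ Real.log 4 := Real.log_nonneg (by norm_num)
  have hprodpos : 0 < ∏ r ∈ PY y, r :=
    Finset.prod_pos fun r hr => (mem_PY hy0 hr).1.pos
  set P' : ℕ := P * ∏ r ∈ PY y, r with hP'
  have hP'0 : 0 < P' := Nat.mul_pos hP hprodpos
  have hlogprod : Real.log ((∏ r ∈ PY y, r : ℕ) : ℝ) ≤ 2 * y * Real.log 4 := by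
    have h1 := Real.log_le_log (by exact_mod_cast hprodpos) (prod_PY_le hy0)
    rwa [Real.log_exp] at h1
  have hP'log : Real.log P' ≤ W + 3 * y := by
    rw [hP', Nat.cast_mul, Real.log_mul (by exact_mod_cast (by omega : P ≠ 0))
      (by exact_mod_cast hprodpos.ne')]
    have : 2 * y * Real.log 4 ≤ 3 * y := by nlinarith
    linarith
  have hremove : 2 * Real.log P' ≤ Real.exp (γ * t) / 2 := by
    have h1 : 8 * W ≤ Real.exp (γ / 2 * t) := num.hb
    have h2 : Real.exp (γ / 2 * t) ≤ Real.exp (γ * t) := by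
      apply Real.exp_le_exp.2
      have : 0 < γ * t := by positivity
      linarith
    have h3 : Real.exp (γ * t / 4) ≤ Real.exp (γ * t) := by
      apply Real.exp_le_exp.2
      have : 0 < γ * t := by positivity
      linarith
    have h4 : 24 * y ≤ 72 * u ^ 2 := by nlinarith
    linarith
  -- the sets `D`
  have hDex : ∀ l : ℕ, ∃ (D : Finset ℕ) (D₀ : ℝ), (¬ (l.Prime ∧ (l : ℝ) ≤ Lam) → D = ∅) ∧
      (l.Prime → (l : ℝ) ≤ Lam →
      (GoodD t y D D₀ ∧ ∀ k : ℕ, 1 ≤ k → (k.primeFactors.card : ℝ) ≤ Real.exp (t ^ (1 - ε / 4)) →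
          ∃ k₀ : ℕ, 1 ≤ k₀ ∧ (k₀ : ℝ) ≤ KZ t D₀ l ∧
            (Nat.gcd k k₀ : ℝ) ≤ (KZ t D₀ l) ^ (3 / 10 : ℝ) ∧
            (KZ t D₀ l) ^ (9 / 10 : ℝ) ≤ (k₀ : ℝ) ∧
            Real.exp (γ * t) ≤ ((DQ t l k₀ D).card : ℝ))) := by
    intro l
    by_cases h : l.Prime ∧ (l : ℝ) ≤ Lam
    · have hll : Real.log l ≤ t ^ (1 - ε / 4) := by
        refine le_trans ?_ num.LA
        exact Real.log_le_log (by exact_mod_cast h.1.pos) h.2
      obtain ⟨D, D₀, h1, h2, h3, h4⟩ := hDp t y num.tT num.ty num.yA l h.1 hll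
      exact ⟨D, D₀, fun hn => absurd h hn, fun _ _ => ⟨⟨h1, h2, h3⟩, h4⟩⟩
    · exact ⟨∅, 0, fun _ => rfl, fun h1 h2 => absurd ⟨h1, h2⟩ h⟩
  choose DD D0 hDD0 hDD using hDex
  refine ⟨⌊Real.exp t⌋₊, fun l k₀ => Qs t P' l k₀ (DD l), fun l k₀ => LM y l k₀, ?_, ?_, ?_, ?_⟩
  · -- the bound for `K`
    refine (Nat.floor_le (Real.exp_pos t).le).trans ?_
    rw [hMe, ← Real.exp_mul]
    apply Real.exp_le_exp.2
    have h1 := num.hS
    have h2 : 0 ≤ Real.log Lam := Real.log_nonneg (by linarith [num.L2])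
    nlinarith
  · -- the bound for `L`
    intro l k₀ hl hlK hk hkK
    have hLM0 : 0 < LM y l k₀ := by
      unfold LM
      have : 0 < l := hl
      have : 0 < k₀ := hk
      positivity
    refine ⟨hLM0, ?_, ?_⟩
    · show 2 ∣ LM y l k₀
      unfold LM
      exact ((Dvd.intro _ rfl : 2 ∣ 2 * l).mul_right k₀).mul_right _
    · have hl' : (l : ℝ) ≤ Real.exp t := (Nat.le_floor_iff (Real.exp_pos t).le).1 hlK
      have hk' : (k₀ : ℝ) ≤ Real.exp t := (Nat.le_floor_iff (Real.exp_pos t).le).1 hkK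
      have hLM0r : (0 : ℝ) < (LM y l k₀ : ℝ) := by exact_mod_cast hLM0
      have hu10 : 1 ≤ 10 * u := by linarith
      have hl2k : Real.log ((2 * l * k₀ : ℕ) : ℝ) ≤ 1 + 2 * t := by
        push_cast
        have hlr : (0 : ℝ) < l := by exact_mod_cast hl
        have hkr : (0 : ℝ) < k₀ := by exact_mod_cast hk
        rw [Real.log_mul (by positivity) hkr.ne', Real.log_mul (by norm_num) hlr.ne']
        have a1 := Real.log_le_log hlr hl'
        have a2 := Real.log_le_log hkr hk'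
        rw [Real.log_exp] at a1 a2
        have := Real.log_two_lt_d9
        linarith
      have hlogL : Real.log (LM y l k₀) ≤ 1 + 2 * t + 3 * y := by
        unfold LM
        rw [Nat.cast_mul, Real.log_mul (by
          have : 0 < 2 * l * k₀ := by positivity
          exact_mod_cast this.ne') (by exact_mod_cast hprodpos.ne')]
        have : 2 * y * Real.log 4 ≤ 3 * y := by nlinarith
        linarith
      have hom := omega_LM hy0 hl hk
      have hom2 : ((2 * l * k₀).primeFactors.card : ℝ) ≤ 2 * (1 + 2 * t) := by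
        refine (omega_le (by positivity : 0 < 2 * l * k₀)).trans ?_
        linarith
      have hPYc := card_PY_log (show (1 : ℝ) ≤ y by linarith)
      have hlogy0 : 0 < Real.log y := Real.log_pos (by linarith)
      have h10 := hNG.h4
      have h11 := hNG.h3
      have hl10 : 0 ≤ Real.log (10 * u) := Real.log_nonneg hu10
      have homr : ((LM y l k₀).primeFactors.card : ℝ) * Real.log (10 * u) ≤ 7 * y := by
        have b1 : ((LM y l k₀).primeFactors.card : ℝ) ≤
            ((2 * l * k₀).primeFactors.card : ℝ) + ((PY y).card : ℝ) := by exact_mod_cast hom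
        have b2 : ((2 * l * k₀).primeFactors.card : ℝ) * Real.log (10 * u) ≤ y := by
          calc ((2 * l * k₀).primeFactors.card : ℝ) * Real.log (10 * u)
              ≤ (2 + 6 * t) * Real.log (10 * u) := by
                apply mul_le_mul_of_nonneg_right _ hl10
                linarith
            _ = Real.log (10 * u) * (2 + 6 * t) := by ring
            _ ≤ y := h11
        have b3 : ((PY y).card : ℝ) * Real.log (10 * u) ≤ 6 * y := by
          have c1 : (0 : ℝ) ≤ ((PY y).card : ℝ) := Nat.cast_nonneg _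
          have c2 : ((PY y).card : ℝ) * Real.log (10 * u) ≤
              2 * (((PY y).card : ℝ) * Real.log y) := by nlinarith
          have c3 : 2 * y * Real.log 4 ≤ 3 * y := by nlinarith
          linarith
        nlinarith
      rw [hMe, ← Real.exp_mul, ← Real.exp_log hLM0r,
        show (10 * u) ^ (LM y l k₀).primeFactors.card =
          Real.exp (((LM y l k₀).primeFactors.card : ℝ) * Real.log (10 * u)) by
          rw [← Real.log_pow, Real.exp_log (by positivity)], ← Real.exp_add]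
      apply Real.exp_le_exp.2
      have h1 := num.hS
      have h2 : 0 ≤ Real.log Lam := Real.log_nonneg (by linarith [num.L2])
      have h3 : 0 < κ * u := by positivity
      linarith
  · -- the primes
    intro l k₀ q hq
    obtain ⟨hqp, hqt, hqP, d, hd, hqe⟩ := mem_Qs hq
    have hlL : l.Prime ∧ (l : ℝ) ≤ Lam := by
      by_contra hn
      rw [hDD0 l hn] at hd
      simp at hd
    obtain ⟨hGD, -⟩ := hDD l hlL.1 hlL.2
    have hq2 := hqp.two_le
    have hk0 : 0 < k₀ := by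
      rcases Nat.eq_zero_or_pos k₀ with h | h
      · rw [h] at hqe; simp at hqe; omega
      · exact h
    have hd0 : 0 < d := by
      rcases Nat.eq_zero_or_pos d with h | h
      · rw [h] at hqe; simp at hqe; omega
      · exact h
    have hl0 : 0 < l := hlL.1.pos
    refine ⟨hqp, fun h => hqP (h.trans (Dvd.intro _ rfl)), ?_, ?_, Qs_dvd hGD hq⟩
    · intro h
      have hge : 2 * l * k₀ < q := by
        rw [hqe]
        nlinarith [Nat.mul_pos (Nat.mul_pos (by norm_num : 0 < 2) hl0) hk0]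
      have hge2 : 2 < q := by
        have : 0 < l * k₀ := Nat.mul_pos hl0 hk0
        nlinarith
      unfold LM at h
      rcases (hqp.dvd_mul).1 h with h1 | h1
      · have := Nat.le_of_dvd (by positivity) h1
        omega
      · exact hqP (h1.trans (Dvd.intro_left _ rfl))
    · refine ⟨2 * d * k₀, ?_⟩
      have : q - 1 = 2 * l * d * k₀ := by omega
      rw [this]; ring
  · -- the sieve
    intro l k hlp hll hk hkω
    have hlL : (l : ℝ) ≤ Lam := by
      rw [hLam, ← Real.log_le_iff_le_exp (by exact_mod_cast hlp.pos)]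
      refine hll.trans ?_
      exact Real.rpow_le_rpow_of_exponent_le hu1 (by linarith)
    have hl1 : 1 ≤ l := hlp.one_lt.le
    obtain ⟨hGD, hDE⟩ := hDD l hlp hlL
    have hkω' : (k.primeFactors.card : ℝ) ≤ Real.exp (t ^ (1 - ε / 4)) := by
      have h3 := num.hk
      have h4 := Real.exp_pos (u ^ (1 - ε))
      linarith
    obtain ⟨k₀, hk01, hkK, hgcd, hk09, hcard0⟩ := hDE k hk hkω'
    obtain ⟨hK1, hK2, hK3⟩ := KZ_bounds hl1 hlL hGD.1 hGD.2.1 num.hd
    refine ⟨?_, k₀, hk01, Nat.le_floor (hkK.trans hK2), ?_, ?_⟩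
    · apply Nat.le_floor
      have h1 : (1 : ℝ) ≤ Real.exp (t / 2) := Real.one_le_exp (by linarith)
      have h2 : (0 : ℝ) ≤ (l : ℝ) := Nat.cast_nonneg _
      nlinarith
    · intro q hq
      exact gcd_smallX num.hd num.hg hGD hl1 hlL hgcd hk09 hk01 hq
    · rw [hκγ]
      refine sv_of_mom hM hu3 ht4 ht16 hrr hγ hγ1 hg1 hg2 ?_ hMe _
        (fun q hq => ⟨(mem_Qs hq).1, (mem_Qs hq).2.1⟩) ?_
      · have := hNG.h2
        rwa [hκγ] at this
      · have h1 := Qs_card (t := t) (b := P') (l := l) (k₀ := k₀) (DD l) hP'0 hl1 hk01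
        linarith

end Pool.Agent.Work.MP_2738db_nt_C.helper1
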